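import Pool.Agent.helper13.BN.Defs3
import Pool.Agent.helper58.BN.Solve
import Pool.Agent.helper68.BN.BubInt2
import Pool.Agent.helper41.BN.Pw

set_option autoImplicit false
open MeasureTheory Filter Topology Set Metric
open scoped ContDiff Gradient RealInnerProductSpace ENNReal

noncomputable section
namespace Pool.Agent.helper13.BN
variable {N : ℕ}

namespace BIA

/-- exponent for `∫ U^{p-1}` -/
def kk (N : ℕ) : ℝ := if N = 3 then 1 else if N = 4 then 7 / 4 else 2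

theorem numer (hN : 3 ≤ N) (hN5 : N ≤ 5) {d μ : ℝ} (hd : 0 < d) (hd1 : d ≤ 1) (hμ : 0 < μ)
    (hμd : μ ≤ d ^ 2) :
    (μ / d) ^ (N : ℝ) ≤ Er N d μ ∧
    (μ ^ cc N) ^ 2 * d ^ (2 - (N : ℝ)) * d ≤ Er N d μ ∧
    (μ ^ cc N) ^ 2 * d ^ (2 - (N : ℝ)) * (μ / d) ≤ Er N d μ ∧
    (μ ^ cc N) ^ 2 * d ^ (2 - (N : ℝ)) * (μ ^ 2 / d ^ 2) ≤ Er N d μ ∧
    (μ ^ cc N) ^ 2 * (d ^ (2 - (N : ℝ))) ^ 2 * μ ^ kk N ≤ Er N d μ := by
  have hμd1 : μ ≤ d := by nlinarith
  have hsq : μ ^ 2 ≤ d ^ 4 := by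
    calc μ ^ 2 ≤ (d ^ 2) ^ 2 := by gcongr
      _ = d ^ 4 := by ring
  rcases (by omega : N = 3 ∨ N = 4 ∨ N = 5) with rfl | rfl | rfl
  · have ht : (μ ^ cc 3) ^ 2 = μ := by
      rw [← Real.rpow_natCast, ← Real.rpow_mul hμ.le]; unfold cc; norm_num
    have hD : d ^ (2 - ((3 : ℕ) : ℝ)) = d⁻¹ := by
      rw [← Real.rpow_neg_one]; norm_num
    have hE : Er 3 d μ = μ := by simp [Er]
    rw [ht, hD, hE, Real.rpow_natCast]
    have hk : μ ^ kk 3 = μ := by simp [kk]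
    rw [hk]
    refine ⟨?_, ?_, ?_, ?_, ?_⟩
    · rw [div_pow, div_le_iff₀ (by positivity)]
      nlinarith [mul_pos hμ (pow_pos hd 3), mul_le_mul_of_nonneg_left hsq hμ.le,
        mul_le_mul_of_nonneg_left (pow_le_pow_of_le_one hd.le hd1 (show 3 ≤ 4 by norm_num)) hμ.le]
    · rw [inv_eq_one_div]; field_simp; exact le_rfl
    · have : μ * d⁻¹ * (μ / d) = μ * (μ / d ^ 2) := by field_simp
      rw [this]
      have h2 : μ / d ^ 2 ≤ 1 := (div_le_one (by positivity)).2 hμd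
      nlinarith
    · have : μ * d⁻¹ * (μ ^ 2 / d ^ 2) = μ * (μ ^ 2 / d ^ 3) := by field_simp
      rw [this]
      have h2 : μ ^ 2 / d ^ 3 ≤ 1 := (div_le_one (by positivity)).2
        (hsq.trans (pow_le_pow_of_le_one hd.le hd1 (show 3 ≤ 4 by norm_num)))
      nlinarith
    · have : μ * d⁻¹ ^ 2 * μ = μ * (μ / d ^ 2) := by field_simp
      rw [this]
      have h2 : μ / d ^ 2 ≤ 1 := (div_le_one (by positivity)).2 hμd
      nlinarith
  · have ht : (μ ^ cc 4) ^ 2 = μ ^ 2 := by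
      rw [← Real.rpow_natCast, ← Real.rpow_mul hμ.le]; unfold cc; norm_num
    have hD : d ^ (2 - ((4 : ℕ) : ℝ)) = (d ^ 2)⁻¹ := by
      rw [← Real.rpow_two, ← Real.rpow_neg hd.le]; norm_num
    have hE : μ ^ 2 / d ≤ Er 4 d μ := by
      simp [Er]; positivity
    rw [ht, hD, Real.rpow_natCast]
    have hk : μ ^ kk 4 ≤ d ^ 3 := by
      have : kk 4 = 7 / 4 := by simp [kk]
      rw [this]
      calc μ ^ ((7 : ℝ) / 4) ≤ (d ^ 2) ^ ((7 : ℝ) / 4) := by gcongr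
        _ = d ^ ((7 : ℝ) / 2) := by
          rw [← Real.rpow_two, ← Real.rpow_mul hd.le]; norm_num
        _ ≤ d ^ ((3 : ℕ) : ℝ) := Real.rpow_le_rpow_of_exponent_ge hd hd1 (by norm_num)
        _ = d ^ 3 := by rw [Real.rpow_natCast]
    have hk0 : 0 < μ ^ kk 4 := by positivity
    refine ⟨le_trans ?_ hE, le_trans ?_ hE, le_trans ?_ hE, le_trans ?_ hE, le_trans ?_ hE⟩
    · have : (μ / d) ^ 4 = μ ^ 2 / d * (μ ^ 2 / d ^ 3) := by field_simp
      rw [this]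
      have h2 : μ ^ 2 / d ^ 3 ≤ 1 := (div_le_one (by positivity)).2
        (hsq.trans (pow_le_pow_of_le_one hd.le hd1 (show 3 ≤ 4 by norm_num)))
      have : 0 < μ ^ 2 / d := by positivity
      nlinarith
    · have : μ ^ 2 * (d ^ 2)⁻¹ * d = μ ^ 2 / d := by field_simp
      rw [this]
    · have : μ ^ 2 * (d ^ 2)⁻¹ * (μ / d) = μ ^ 2 / d * (μ / d ^ 2) := by field_simp
      rw [this]
      have h2 : μ / d ^ 2 ≤ 1 := (div_le_one (by positivity)).2 hμd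
      have : 0 < μ ^ 2 / d := by positivity
      nlinarith
    · have : μ ^ 2 * (d ^ 2)⁻¹ * (μ ^ 2 / d ^ 2) = μ ^ 2 / d * (μ ^ 2 / d ^ 3) := by field_simp
      rw [this]
      have h2 : μ ^ 2 / d ^ 3 ≤ 1 := (div_le_one (by positivity)).2
        (hsq.trans (pow_le_pow_of_le_one hd.le hd1 (show 3 ≤ 4 by norm_num)))
      have : 0 < μ ^ 2 / d := by positivity
      nlinarith
    · have : μ ^ 2 * (d ^ 2)⁻¹ ^ 2 * μ ^ kk 4 = μ ^ 2 / d * (μ ^ kk 4 / d ^ 3) := by field_simp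
      rw [this]
      have h2 : μ ^ kk 4 / d ^ 3 ≤ 1 := (div_le_one (by positivity)).2 hk
      have : 0 < μ ^ 2 / d := by positivity
      nlinarith
  · have ht : (μ ^ cc 5) ^ 2 = μ ^ 3 := by
      rw [← Real.rpow_natCast, ← Real.rpow_mul hμ.le, ← Real.rpow_natCast μ 3]; unfold cc; norm_num
    have hD : d ^ (2 - ((5 : ℕ) : ℝ)) = (d ^ 3)⁻¹ := by
      rw [← Real.rpow_natCast d 3, ← Real.rpow_neg hd.le]; norm_num
    have hE : μ ^ 3 / d ^ 3 ≤ Er 5 d μ := by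
      simp [Er]; positivity
    rw [ht, hD, Real.rpow_natCast]
    have hk : μ ^ kk 5 = μ ^ 2 := by simp [kk]
    rw [hk]
    have hb : 0 < μ ^ 3 / d ^ 3 := by positivity
    refine ⟨le_trans ?_ hE, le_trans ?_ hE, le_trans ?_ hE, le_trans ?_ hE, le_trans ?_ hE⟩
    · have : (μ / d) ^ 5 = μ ^ 3 / d ^ 3 * (μ ^ 2 / d ^ 2) := by field_simp
      rw [this]
      have h2 : μ ^ 2 / d ^ 2 ≤ 1 := (div_le_one (by positivity)).2
        (hsq.trans (pow_le_pow_of_le_one hd.le hd1 (show 2 ≤ 4 by norm_num)))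
      nlinarith
    · have : μ ^ 3 * (d ^ 3)⁻¹ * d = μ ^ 3 / d ^ 3 * d := by field_simp
      rw [this]
      nlinarith
    · have : μ ^ 3 * (d ^ 3)⁻¹ * (μ / d) = μ ^ 3 / d ^ 3 * (μ / d) := by field_simp
      rw [this]
      have h2 : μ / d ≤ 1 := (div_le_one (by positivity)).2 hμd1
      nlinarith
    · have : μ ^ 3 * (d ^ 3)⁻¹ * (μ ^ 2 / d ^ 2) = μ ^ 3 / d ^ 3 * (μ ^ 2 / d ^ 2) := by field_simp
      rw [this]
      have h2 : μ ^ 2 / d ^ 2 ≤ 1 := (div_le_one (by positivity)).2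
        (hsq.trans (pow_le_pow_of_le_one hd.le hd1 (show 2 ≤ 4 by norm_num)))
      nlinarith
    · have : μ ^ 3 * (d ^ 3)⁻¹ ^ 2 * μ ^ 2 = μ ^ 3 / d ^ 3 * (μ ^ 2 / d ^ 3) := by field_simp
      rw [this]
      have h2 : μ ^ 2 / d ^ 3 ≤ 1 := (div_le_one (by positivity)).2
        (hsq.trans (pow_le_pow_of_le_one hd.le hd1 (show 3 ≤ 4 by norm_num)))
      nlinarith

theorem ball_sub_ann {ρ d : ℝ} (h : d ≤ (1 - ρ) / 2) (hd : 0 < d) (hρ : 0 < ρ) {e : E N} (he : ‖e‖ = 1) :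
    ball (cen e d) d ⊆ ann N ρ := by
  intro x hx
  rw [mem_ball, dist_eq_norm] at hx
  have h1 : ‖cen e d‖ = 1 - d := by
    unfold cen
    rw [norm_smul, he, mul_one, Real.norm_of_nonneg (by linarith)]
  have h2 : ‖x‖ ≤ ‖x - cen e d‖ + ‖cen e d‖ := by
    simpa using norm_add_le (x - cen e d) (cen e d)
  have h3 : ‖cen e d‖ ≤ ‖x - cen e d‖ + ‖x‖ := by
    rw [← norm_neg (x - cen e d)]
    simpa using norm_add_le (-(x - cen e d)) x
  constructor <;> linarith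

theorem ann_sub_ball {ρ d : ℝ} (hd : 0 < d) (hd1 : d ≤ 1) {e : E N} (he : ‖e‖ = 1) :
    ann N ρ ⊆ ball (cen e d) 3 := by
  intro x hx
  rw [mem_ball, dist_eq_norm]
  have h1 : ‖cen e d‖ = 1 - d := by
    unfold cen
    rw [norm_smul, he, mul_one, Real.norm_of_nonneg (by linarith)]
  have h2 := norm_sub_le x (cen e d)
  have := hx.2
  linarith

theorem measurableSet_ann (N : ℕ) (ρ : ℝ) : MeasurableSet (ann N ρ) := by
  have h : ann N ρ = (fun x : E N => ‖x‖) ⁻¹' (Ioo ρ 1) := by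
    ext x; simp [ann]
  rw [h]
  exact measurable_norm measurableSet_Ioo

end BIA

open BI BIA in
/-- (a), with the statement of `proj_est` as a hypothesis (`int_self` in `BIntA1.lean`) -/
theorem int_self_of (hN : 3 ≤ N) (hN5 : N ≤ 5) {ρ : ℝ} (hρ : 0 < ρ) (hρ1 : ρ < 1)
    (hproj : ∃ C d₁ : ℝ, 0 < C ∧ 0 < d₁ ∧ ρ < 1 - d₁ ∧ ∀ (e : E N) (d μ : ℝ), ‖e‖ = 1 → 0 < d →
      d < d₁ → 0 < μ → μ ≤ d ^ 2 → ∀ᵐ x, x ∈ ann N ρ →
        0 ≤ fn (WW e ρ d μ) x ∧ fn (WW e ρ d μ) x ≤ bub N μ (cen e d) x ∧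
        bub N μ (cen e d) x - fn (WW e ρ d μ) x ≤ C * μ ^ cc N * d ^ (2 - (N : ℝ)) ∧
        |bub N μ (cen e d) x - fn (WW e ρ d μ) x - alN N * μ ^ cc N * (2 * d) ^ (2 - (N : ℝ))|
          ≤ C * μ ^ cc N * d ^ (2 - (N : ℝ)) * (d + ‖x - cen e d‖ / d) ∧
        |bubMu N μ (cen e d) x - fn (ZM e ρ d μ) x| ≤ C * μ ^ cc N * d ^ (2 - (N : ℝ)) ∧
        |bubXi N e μ (cen e d) x - fn (ZX e ρ d μ) x| ≤ C * μ ^ cc N * d ^ (2 - (N : ℝ)) ∧
        |fn (ZM e ρ d μ) x| ≤ C * fn (WW e ρ d μ) x ∧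
        |fn (ZX e ρ d μ) x| ≤ C * fn (WW e ρ d μ) x) :
    ∃ C d₁ : ℝ, 0 < C ∧ 0 < d₁ ∧ ρ < 1 - d₁ ∧ ∀ (e : E N) (d μ : ℝ), ‖e‖ = 1 → 0 < d → d < d₁ →
      0 < μ → μ ≤ d ^ 2 →
      |‖WW e ρ d μ‖ ^ 2 / 2 - (∫ x in ann N ρ, NL N (fn (WW e ρ d μ) x)) - sN N / N
        - aN N * alN N / 2 * (μ ^ cc N) ^ 2 * (2 * d) ^ (2 - (N : ℝ))| ≤ C * Er N d μ := by
  obtain ⟨C₁, d₁, hC₁, hd₁, hρd₁, hest⟩ := hproj
  obtain ⟨C₂, hC₂, hsub⟩ := NL_sub hN hN5
  obtain ⟨C₃, hC₃, htn⟩ := tail_nl hN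
  obtain ⟨C₄, hC₄, htt⟩ := tail_ts hN
  obtain ⟨C₅, hC₅, hmo⟩ := moment_nl hN one_pos le_rfl
  have hal := alN_pos hN
  have hpm := pm_pos hN
  have hN3 := cN3 hN
  have haN := aN_pos hN
  have hk : pm N * cc N = 2 := by rw [mul_comm]; exact cc_pm hN
  obtain ⟨C₆, hC₆, hbp⟩ := int_bub_pow hN (q := pm N) (k := kk N) hpm (by
      rw [hk]; rcases (by omega : N = 3 ∨ N = 4 ∨ N = 5) with rfl | rfl | rfl <;> norm_num [kk]) (by
      rw [hk]; rcases (by omega : N = 3 ∨ N = 4 ∨ N = 5) with rfl | rfl | rfl <;> norm_num [kk]) (by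
      rw [hk]; rcases (by omega : N = 3 ∨ N = 4 ∨ N = 5) with rfl | rfl | rfl <;> norm_num [kk])
  refine ⟨C₄ / N + (C₁ * aN N + C₁ * C₅ + alN N * 2 ^ (2 - (N : ℝ)) * C₃) / 2 + C₂ * C₁ ^ 2 * C₆,
    min d₁ ((1 - ρ) / 2), by positivity, lt_min hd₁ (by linarith), ?_, ?_⟩
  · have := min_le_left d₁ ((1 - ρ) / 2); linarith
  intro e d μ he hd hdd hμ hμd
  have hdd₁ : d < d₁ := hdd.trans_le (min_le_left _ _)
  have hdρ : d < (1 - ρ) / 2 := hdd.trans_le (min_le_right _ _)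
  have hd1 : d ≤ 1 := by linarith
  have hμ1 : μ ≤ 1 := hμd.trans (by nlinarith)
  obtain ⟨n1, n2, n3, n4, n5⟩ := numer hN hN5 hd hd1 hμ hμd
  have hE0 : 0 ≤ Er N d μ := le_trans (by positivity) n1
  set Ω := ann N ρ with hΩ
  set ξ := cen e d with hξ
  have hΩm : MeasurableSet Ω := measurableSet_ann N ρ
  have hae : ∀ᵐ x ∂(volume.restrict Ω), 0 ≤ fn (WW e ρ d μ) x ∧
      fn (WW e ρ d μ) x ≤ bub N μ ξ x ∧
        bub N μ ξ x - fn (WW e ρ d μ) x ≤ C₁ * μ ^ cc N * d ^ (2 - (N : ℝ)) ∧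
        |bub N μ ξ x - fn (WW e ρ d μ) x - alN N * μ ^ cc N * (2 * d) ^ (2 - (N : ℝ))|
          ≤ C₁ * μ ^ cc N * d ^ (2 - (N : ℝ)) * (d + ‖x - ξ‖ / d) := by
    rw [ae_restrict_iff' hΩm]
    filter_upwards [hest e d μ he hd hdd₁ hμ hμd] with x hx hxΩ
    exact ⟨(hx hxΩ).1, (hx hxΩ).2.1, (hx hxΩ).2.2.1, (hx hxΩ).2.2.2.1⟩
  set w := fn (WW e ρ d μ) with hw
  set U := bub N μ ξ with hU
  have hUc : Continuous U := bub_cont hN hμ ξ
  have hUpos : ∀ x, 0 < U x := bub_pos hN hμ ξ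
  have hwm : AEStronglyMeasurable w (volume.restrict Ω) := (fn_meas _).restrict
  set τ := μ ^ cc N with hτ
  have hτ0 : 0 < τ := by positivity
  set D := d ^ (2 - (N : ℝ)) with hD
  have hD0 : 0 < D := by positivity
  set H := alN N * τ * (2 * d) ^ (2 - (N : ℝ)) with hH
  have hHD : H = alN N * 2 ^ (2 - (N : ℝ)) * (τ * D) := by
    rw [hH, Real.mul_rpow (by norm_num) hd.le]; ring
  set K := C₁ * τ * D with hK
  have hK0 : 0 < K := by positivity
  have hts : 0 < ts N := BI.ts_pos hN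
  have hNLU : ∀ x, NL N (U x) = U x ^ ts N / ts N := fun x => by
    unfold NL; rw [abs_of_pos (hUpos x), pm_add_two hN]
  have hnlU : ∀ x, nl N (U x) * U x = U x ^ ts N := fun x => by
    rw [← pm_add_two hN, show pm N + 2 = (pm N + 1) + 1 by ring,
      Real.rpow_add_one (hUpos x).ne', Real.rpow_add_one (hUpos x).ne']
    unfold nl
    rw [abs_of_pos (hUpos x)]
  have hnl0 : ∀ x, 0 ≤ nl N (U x) := fun x => by
    rw [nl_bub hN hμ]; exact (Real.rpow_pos_of_pos (hUpos x) _).le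
  -- integrability
  have iA : IntegrableOn (fun x => U x ^ ts N) Ω := (int_bub_ts hN hμ ξ).1.integrableOn
  have iI : IntegrableOn (fun x => nl N (U x)) Ω := (int_nl_bub hN hμ ξ).1.integrableOn
  have iM : IntegrableOn (fun x => nl N (U x) * ‖x - ξ‖) Ω := by
    have := (hmo μ ξ hμ).1.integrableOn (s := Ω)
    simpa using this
  have hg : Mq (td N) Ω (fun x => nl N (U x)) :=
    (Mq_nl_bub hN hμ ξ).1.mono_measure (Measure.restrict_mono_set _ (subset_univ _))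
  have hweak : Weak Ω (WW e ρ d μ) (fun x => nl N (U x)) := T_weak hN hΩm hg
  have hmemW : WW e ρ d μ ∈ DD Ω := T_mem _ _
  obtain ⟨iW, eW⟩ := weak_pair hN hΩm hg hweak hmemW
  rw [real_inner_self_eq_norm_sq] at eW
  have iB : IntegrableOn (fun x => nl N (U x) * (U x - w x)) Ω := by
    have h1 : (fun x => nl N (U x) * (U x - w x)) =
        fun x => U x ^ ts N - nl N (U x) * w x := by
      funext x; rw [← hnlU x]; ring
    rw [h1]
    exact iA.sub iW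
  have iC : IntegrableOn (fun x => NL N (w x)) Ω := by
    have hNLc : Continuous (NL N) := by
      unfold NL
      exact ((continuous_abs.rpow_const fun _ => Or.inr (by linarith)).div_const _)
    refine Integrable.mono' (iA.div_const (ts N)) (hNLc.comp_aestronglyMeasurable hwm) ?_
    filter_upwards [hae] with x hx
    unfold NL
    have hx0 : 0 ≤ w x := hx.1
    rw [pm_add_two hN, abs_of_nonneg hx0, Real.norm_of_nonneg (by positivity)]
    gcongr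
    exact hx.2.1
  have iP : IntegrableOn (fun x => U x ^ pm N) Ω :=
    IntegrableOn.mono_set (hbp μ ξ hμ hμ1).1 (ann_sub_ball hd hd1 he)
  set A := ∫ x in Ω, U x ^ ts N with hA
  set B := ∫ x in Ω, nl N (U x) * (U x - w x) with hB
  set Cc := ∫ x in Ω, NL N (w x) with hCc
  set I := ∫ x in Ω, nl N (U x) with hI
  set M := ∫ x in Ω, nl N (U x) * ‖x - ξ‖ with hM
  set P := ∫ x in Ω, U x ^ pm N with hP
  -- (1)
  have e1 : ‖WW e ρ d μ‖ ^ 2 = A - B := by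
    rw [eW, hA, hB, ← integral_sub iA iB]
    refine integral_congr_ae (Eventually.of_forall fun x => ?_)
    show nl N (U x) * w x = U x ^ ts N - nl N (U x) * (U x - w x)
    rw [← hnlU x]; ring
  -- (2)
  have e2 : |Cc - A / ts N + B| ≤ C₂ * K ^ 2 * P := by
    have h1 : Cc - A / ts N + B =
        ∫ x in Ω, (NL N (w x) - U x ^ ts N / ts N + nl N (U x) * (U x - w x)) := by
      have iCA : IntegrableOn (fun x => NL N (w x) - U x ^ ts N / ts N) Ω :=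
        iC.sub (iA.div_const _)
      rw [integral_add iCA iB, integral_sub iC (iA.div_const _), integral_div]
    rw [h1, hP, ← integral_const_mul]
    refine (abs_integral_le_integral_abs).trans ?_
    refine integral_mono_ae ((iC.sub (iA.div_const _)).add iB).abs (iP.const_mul _) ?_
    filter_upwards [hae] with x hx
    have h2 := hsub (U x) (U x - w x) (by linarith [hx.2.1]) (by linarith [hx.1])
    rw [sub_sub_cancel, hNLU] at h2
    refine h2.trans ?_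
    have h3 : (U x - w x) ^ 2 ≤ K ^ 2 :=
      pow_le_pow_left₀ (by linarith [hx.2.1]) hx.2.2.1 2
    calc C₂ * U x ^ pm N * (U x - w x) ^ 2 ≤ C₂ * U x ^ pm N * K ^ 2 := by
          have := Real.rpow_pos_of_pos (hUpos x) (pm N)
          gcongr
      _ = C₂ * K ^ 2 * U x ^ pm N := by ring
  have e2' : P ≤ C₆ * μ ^ kk N := by
    refine le_trans ?_ (hbp μ ξ hμ hμ1).2
    refine setIntegral_mono_set (hbp μ ξ hμ hμ1).1
      (Eventually.of_forall fun x => (Real.rpow_pos_of_pos (hUpos x) _).le) ?_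
    exact (ann_sub_ball hd hd1 he).eventuallyLE
  -- (3)
  have e3 : |B - H * I| ≤ K * (d * I + M / d) := by
    have h1 : B - H * I = ∫ x in Ω, (nl N (U x) * (U x - w x) - H * nl N (U x)) := by
      rw [integral_sub iB (iI.const_mul _), integral_const_mul]
    have h4 : K * (d * I + M / d) =
        ∫ x in Ω, K * (d * nl N (U x) + nl N (U x) * ‖x - ξ‖ / d) := by
      rw [integral_const_mul, integral_add (iI.const_mul _) (iM.div_const _), integral_const_mul,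
        integral_div]
    rw [h1, h4]
    refine (abs_integral_le_integral_abs).trans ?_
    refine integral_mono_ae (iB.sub (iI.const_mul _)).abs
      (((iI.const_mul _).add (iM.div_const _)).const_mul _) ?_
    filter_upwards [hae] with x hx
    have h5 : nl N (U x) * (U x - w x) - H * nl N (U x) = nl N (U x) * (U x - w x - H) := by ring
    show |nl N (U x) * (U x - w x) - H * nl N (U x)| ≤ _
    rw [h5, abs_mul, abs_of_nonneg (hnl0 x)]
    calc nl N (U x) * |U x - w x - H| ≤ nl N (U x) * (K * (d + ‖x - ξ‖ / d)) :=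
          mul_le_mul_of_nonneg_left hx.2.2.2 (hnl0 x)
      _ = _ := by ring
  -- (4)
  have hbΩ : ball ξ d ⊆ Ω := ball_sub_ann hdρ.le hd hρ he
  have e4 : I + ∫ x in Ωᶜ, nl N (U x) = aN N * τ := by
    rw [hI, integral_add_compl hΩm (int_nl_bub hN hμ ξ).1, (int_nl_bub hN hμ ξ).2]
  have e4a : 0 ≤ ∫ x in Ωᶜ, nl N (U x) := integral_nonneg fun x => hnl0 x
  have e4b : ∫ x in Ωᶜ, nl N (U x) ≤ C₃ * τ * μ ^ 2 / d ^ 2 := by
    refine le_trans ?_ (htn μ d ξ hμ hd)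
    exact setIntegral_mono_set (int_nl_bub hN hμ ξ).1.integrableOn
      (Eventually.of_forall fun x => hnl0 x) (compl_subset_compl.2 hbΩ).eventuallyLE
  have e4c : M ≤ C₅ * τ * μ := by
    have h1 := (hmo μ ξ hμ).2
    have h2 := (hmo μ ξ hμ).1
    simp only [Real.rpow_one] at h1 h2
    refine le_trans ?_ h1
    exact setIntegral_le_integral h2 (Eventually.of_forall fun x =>
      mul_nonneg (hnl0 x) (norm_nonneg _))
  have e4d : 0 ≤ I := integral_nonneg fun x => hnl0 x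
  -- (5)
  have e5 : A + ∫ x in Ωᶜ, U x ^ ts N = sN N := by
    rw [hA, integral_add_compl hΩm (int_bub_ts hN hμ ξ).1, (int_bub_ts hN hμ ξ).2]
  have e5a : 0 ≤ ∫ x in Ωᶜ, U x ^ ts N :=
    integral_nonneg fun x => (Real.rpow_pos_of_pos (hUpos x) _).le
  have e5b : ∫ x in Ωᶜ, U x ^ ts N ≤ C₄ * (μ / d) ^ (N : ℝ) := by
    refine le_trans ?_ (htt μ d ξ hμ hd)
    exact setIntegral_mono_set (int_bub_ts hN hμ ξ).1.integrableOn
      (Eventually.of_forall fun x => (Real.rpow_pos_of_pos (hUpos x) _).le)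
      (compl_subset_compl.2 hbΩ).eventuallyLE
  -- assembly
  set t1 := ∫ x in Ωᶜ, nl N (U x) with ht1
  set t2 := ∫ x in Ωᶜ, U x ^ ts N with ht2
  have hinv : 1 / 2 - 1 / ts N = 1 / N := by
    unfold ts
    have h1 : (N : ℝ) - 2 ≠ 0 := by linarith
    have h2 : (N : ℝ) ≠ 0 := by linarith
    field_simp
    ring
  have hfin : ‖WW e ρ d μ‖ ^ 2 / 2 - Cc - sN N / N - aN N * alN N / 2 * τ ^ 2 *
      (2 * d) ^ (2 - (N : ℝ)) =
      -(t2 / N) + (B - H * I) / 2 - H * t1 / 2 - (Cc - A / ts N + B) := by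
    have h1 : aN N * alN N / 2 * τ ^ 2 * (2 * d) ^ (2 - (N : ℝ)) = H * (aN N * τ) / 2 := by
      rw [hH]; ring
    rw [h1, ← e4, e1, ← e5]
    have h2 : A / N = A / 2 - A / ts N := by
      have : A / 2 - A / ts N = A * (1 / 2 - 1 / ts N) := by ring
      rw [this, hinv]; ring
    have h3 : (A + t2) / N = A / 2 - A / ts N + t2 / N := by rw [add_div, h2]
    rw [h3]
    ring
  rw [hfin]
  have q1 : |t2 / N| ≤ C₄ / N * Er N d μ := by
    rw [abs_of_nonneg (by positivity)]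
    calc t2 / N ≤ C₄ * Er N d μ / N := by
          gcongr
          exact e5b.trans (mul_le_mul_of_nonneg_left n1 hC₄.le)
      _ = _ := by ring
  have q2 : |(B - H * I) / 2| ≤ (C₁ * aN N + C₁ * C₅) / 2 * Er N d μ := by
    rw [abs_div, abs_of_pos (two_pos : (0 : ℝ) < 2)]
    have h1 : I ≤ aN N * τ := by linarith
    calc |B - H * I| / 2 ≤ K * (d * (aN N * τ) + C₅ * τ * μ / d) / 2 := by
          have : K * (d * I + M / d) ≤ K * (d * (aN N * τ) + C₅ * τ * μ / d) := by gcongr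
          linarith
      _ = (C₁ * aN N * (τ ^ 2 * D * d) + C₁ * C₅ * (τ ^ 2 * D * (μ / d))) / 2 := by
          rw [hK]; ring
      _ ≤ (C₁ * aN N * Er N d μ + C₁ * C₅ * Er N d μ) / 2 := by gcongr
      _ = _ := by ring
  have q3 : |H * t1 / 2| ≤ alN N * 2 ^ (2 - (N : ℝ)) * C₃ / 2 * Er N d μ := by
    have hH0 : 0 ≤ H := by positivity
    rw [abs_of_nonneg (by positivity)]
    calc H * t1 / 2 ≤ H * (C₃ * τ * μ ^ 2 / d ^ 2) / 2 := by gcongr
      _ = alN N * 2 ^ (2 - (N : ℝ)) * C₃ / 2 * (τ ^ 2 * D * (μ ^ 2 / d ^ 2)) := by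
          rw [hHD]; ring
      _ ≤ _ := by gcongr
  have q4 : |Cc - A / ts N + B| ≤ C₂ * C₁ ^ 2 * C₆ * Er N d μ := by
    calc |Cc - A / ts N + B| ≤ C₂ * K ^ 2 * (C₆ * μ ^ kk N) := e2.trans (by gcongr)
      _ = C₂ * C₁ ^ 2 * C₆ * (τ ^ 2 * D ^ 2 * μ ^ kk N) := by rw [hK]; ring
      _ ≤ _ := by gcongr
  have habs : |-(t2 / N) + (B - H * I) / 2 - H * t1 / 2 - (Cc - A / ts N + B)| ≤
      |t2 / N| + |(B - H * I) / 2| + |H * t1 / 2| + |Cc - A / ts N + B| := by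
    have a1 := abs_le.1 (le_refl |t2 / N|)
    have a2 := abs_le.1 (le_refl |(B - H * I) / 2|)
    have a3 := abs_le.1 (le_refl |H * t1 / 2|)
    have a4 := abs_le.1 (le_refl |Cc - A / ts N + B|)
    rw [abs_le]
    constructor <;> linarith [a1.1, a1.2, a2.1, a2.2, a3.1, a3.2, a4.1, a4.2]
  refine habs.trans ?_
  calc _ ≤ C₄ / N * Er N d μ + (C₁ * aN N + C₁ * C₅) / 2 * Er N d μ +
        alN N * 2 ^ (2 - (N : ℝ)) * C₃ / 2 * Er N d μ + C₂ * C₁ ^ 2 * C₆ * Er N d μ := by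
        linarith
    _ = _ := by ring

end Pool.Agent.helper13.BN
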